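import Pool.Agent.U309.ZF.Stm2

/-!
# Project ZF, package INTST: the Sato–Tate integral of `gg` is at most `1.3`

On `[-2, 0]` we use `gg t ≤ (3/2) t² - t + 1/6` (a sum of squares for each of the four linear
functions) and the primitive of `((3/2) t² - t + 1/6) √(4 - t²)`; on `[0, 2]` the function `gg` is
zero.  The bound is `5/6 + 4/(3π) = 1.2577...`.
-/

set_option autoImplicit false

open MeasureTheory Set Filter Topology

namespace Pool.Agent.U278.ZF

open Pool.Agent.U309.ZF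

theorem gg_cont : Continuous gg := by
  unfold gg
  fun_prop

theorem gg_le (t : ℝ) : gg t ≤ 3 / 2 * t ^ 2 - t + 1 / 6 := by
  unfold gg
  refine max_le (max_le ?_ ?_) (max_le ?_ ?_)
  · nlinarith [sq_nonneg (t - 1 / 3)]
  · nlinarith [sq_nonneg (t + 1 / 3)]
  · nlinarith [sq_nonneg (t + 1)]
  · nlinarith [sq_nonneg (t + 5 / 3)]

theorem gg_zero {t : ℝ} (ht : 0 ≤ t) : gg t = 0 := by
  unfold gg
  have h1 : -2 * t ≤ 0 := by linarith
  have h2 : -4 * t - 4 / 3 ≤ 0 := by linarith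
  have h3 : -6 * t - 4 ≤ 0 := by linarith
  rw [max_eq_left h1, max_eq_left (max_le h2 h3)]

/-- the primitive -/
noncomputable def Phi (t : ℝ) : ℝ :=
  (1 / 3 - 3 / 8 * t) * ((4 - t ^ 2) * √(4 - t ^ 2)) +
    5 / 3 * (t / 2 * √(4 - t ^ 2) + 2 * Real.arcsin (t / 2))

theorem Phi_cont : Continuous Phi := by
  unfold Phi
  have : Continuous fun t : ℝ => Real.arcsin (t / 2) :=
    Real.continuous_arcsin.comp (continuous_id.div_const 2)
  fun_prop

theorem Phi_deriv {t : ℝ} (h1 : -2 < t) (h2 : t < 2) :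
    HasDerivAt Phi ((3 / 2 * t ^ 2 - t + 1 / 6) * √(4 - t ^ 2)) t := by
  have hpos : 0 < 4 - t ^ 2 := by nlinarith
  set s := √(4 - t ^ 2) with hs
  have hs0 : 0 < s := Real.sqrt_pos.mpr hpos
  have hs2 : s ^ 2 = 4 - t ^ 2 := Real.sq_sqrt hpos.le
  have d0 : HasDerivAt (fun x : ℝ => 4 - x ^ 2) (-(2 * t)) t := by
    have := (hasDerivAt_pow 2 t).const_sub 4
    simpa using this
  have ds : HasDerivAt (fun x : ℝ => √(4 - x ^ 2)) (-(2 * t) / (2 * s)) t :=
    d0.sqrt hpos.ne'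
  have dt : HasDerivAt (fun x : ℝ => x / 2) (1 / 2) t := by
    simpa using (hasDerivAt_id t).div_const 2
  have hne1 : t / 2 ≠ -1 := by intro h; linarith
  have hne2 : t / 2 ≠ 1 := by intro h; linarith
  have da : HasDerivAt (fun x : ℝ => Real.arcsin (x / 2)) (1 / √(1 - (t / 2) ^ 2) * (1 / 2)) t :=
    HasDerivAt.comp t (h₂ := Real.arcsin) (h := fun x : ℝ => x / 2)
      (Real.hasDerivAt_arcsin hne1 hne2) dt
  have hsq : √(1 - (t / 2) ^ 2) = s / 2 := by
    rw [show 1 - (t / 2) ^ 2 = (s / 2) ^ 2 by rw [div_pow s, hs2]; ring]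
    exact Real.sqrt_sq (by positivity)
  have dl : HasDerivAt (fun x : ℝ => 1 / 3 - 3 / 8 * x) (-(3 / 8)) t := by
    have := ((hasDerivAt_id t).const_mul (3 / 8)).const_sub (1 / 3)
    simpa using this
  have key := (dl.mul (d0.mul ds)).add (((dt.mul ds).add (da.const_mul 2)).const_mul (5 / 3))
  have e : (3 / 2 * t ^ 2 - t + 1 / 6) * s =
      (-(3 / 8) * ((4 - t ^ 2) * √(4 - t ^ 2)) +
        (1 / 3 - 3 / 8 * t) * (-(2 * t) * √(4 - t ^ 2) + (4 - t ^ 2) * (-(2 * t) / (2 * s)))) +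
      5 / 3 * ((1 / 2 * √(4 - t ^ 2) + t / 2 * (-(2 * t) / (2 * s))) +
        2 * (1 / √(1 - (t / 2) ^ 2) * (1 / 2))) := by
    rw [hsq, ← hs, ← hs2]
    have ht2 : t ^ 2 = 4 - s ^ 2 := by linarith
    field_simp
    ring_nf
    have h4 : t ^ 2 = 4 - s ^ 2 := ht2
    have h6 : t ^ 3 = t * (4 - s ^ 2) := by rw [← h4]; ring
    rw [h4]
    ring
  rw [e]
  exact key

theorem int_eq : ∫ t in (-2 : ℝ)..0, (3 / 2 * t ^ 2 - t + 1 / 6) * √(4 - t ^ 2) =
    8 / 3 + 5 / 3 * Real.pi := by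
  have hc : Continuous fun t : ℝ => (3 / 2 * t ^ 2 - t + 1 / 6) * √(4 - t ^ 2) := by fun_prop
  rw [intervalIntegral.integral_eq_sub_of_hasDerivAt_of_le (by norm_num) Phi_cont.continuousOn
    (fun t ht => Phi_deriv ht.1 (lt_trans ht.2 (by norm_num))) (hc.intervalIntegrable _ _)]
  unfold Phi
  have h4 : √(4 : ℝ) = 2 := by
    rw [show (4 : ℝ) = 2 ^ 2 by norm_num]
    exact Real.sqrt_sq (by norm_num)
  have h5 : ((-2 : ℝ) / 2) = -1 := by norm_num
  rw [h5, Real.arcsin_neg_one]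
  norm_num [h4]
  ring

/-- Package INTST. -/
theorem t_INTST : S_INTST := by
  unfold S_INTST
  have hc : Continuous fun t : ℝ => gg t * √(4 - t ^ 2) := by
    have := gg_cont
    fun_prop
  have hc2 : Continuous fun t : ℝ => (3 / 2 * t ^ 2 - t + 1 / 6) * √(4 - t ^ 2) := by fun_prop
  have h1 : ∫ t in (-2 : ℝ)..2, gg t * √(4 - t ^ 2) = ∫ t in (-2 : ℝ)..0, gg t * √(4 - t ^ 2) := by
    rw [← intervalIntegral.integral_add_adjacent_intervals (b := 0)
      (hc.intervalIntegrable _ _) (hc.intervalIntegrable _ _)]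
    have : ∫ t in (0 : ℝ)..2, gg t * √(4 - t ^ 2) = ∫ t in (0 : ℝ)..2, (0 : ℝ) := by
      refine intervalIntegral.integral_congr fun t ht => ?_
      rw [uIcc_of_le (by norm_num)] at ht
      simp [gg_zero ht.1]
    rw [this]
    simp
  have h2 : ∫ t in (-2 : ℝ)..0, gg t * √(4 - t ^ 2) ≤
      ∫ t in (-2 : ℝ)..0, (3 / 2 * t ^ 2 - t + 1 / 6) * √(4 - t ^ 2) := by
    refine intervalIntegral.integral_mono_on (by norm_num) (hc.intervalIntegrable _ _)
      (hc2.intervalIntegrable _ _) fun t _ => ?_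
    exact mul_le_mul_of_nonneg_right (gg_le t) (Real.sqrt_nonneg _)
  rw [h1]
  rw [int_eq] at h2
  have hpi : 3 < Real.pi := Real.pi_gt_three
  rw [inv_mul_le_iff₀ (by positivity)]
  refine h2.trans ?_
  norm_num
  nlinarith

end Pool.Agent.U278.ZF
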